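import Pool.Agent.H84.ND.Targets2

/-!
# MP_70ba79_ag, nodal curves, SME: the sections of degree 0 in `w`
-/

set_option autoImplicit false

namespace Pool.Agent.H56.ND

open MvPolynomial SC Pool.Agent.H27.LV Pool.Agent.H84.SM Pool.Agent.H84.ND

theorem gF_ne {k : Type} [Field k] {G : MvPolynomial (Fin 3) k} (hG : G ≠ 0) : gF G ≠ 0 := by
  have h : (aeval (xa (k := k)) : MvPolynomial (Fin 3) k →ₐ[k] A2 k) = rename Sum.inl := by
    refine MvPolynomial.algHom_ext fun i => ?_
    rw [aeval_X, rename_X]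
    rfl
  have h1 : gA G ≠ 0 := by
    unfold gA
    rw [h]
    intro h
    exact hG (rename_injective _ Sum.inl_injective (h.trans (map_zero _).symm))
  intro h
  exact h1 ((IsFractionRing.injective (A2 k) (F2 k)) (h.trans (map_zero _).symm))

theorem pf_SME (hEME : Pool.Agent.H84.SM.T_EME) : T_SME := by
  intro k _ _ _ G d hd hG hG0 i t f
  have hg : gF G ≠ 0 := gF_ne hG0
  have hinj := IsFractionRing.injective (A2 k) (F2 k)
  have hmem : f ∈ SJ G d i t ↔ Polynomial.C f ∈ E G d i t := Iff.rfl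
  rw [hmem, hEME k G d hd hG hG0]
  constructor
  · rintro ⟨M, N, hN, hQ⟩
    unfold sec at hQ
    have hgM : gF G ^ M ≠ 0 := pow_ne_zero _ hg
    have h1 : N.map (algebraMap (A2 k) (F2 k)) = Polynomial.C (gF G ^ M * f) := by
      rw [Polynomial.C_mul, hQ, ← mul_assoc, ← Polynomial.C_mul, mul_inv_cancel₀ hgM,
        Polynomial.C_1, one_mul]
    have h2 : N = Polynomial.C (N.coeff 0) := by
      ext1 j
      rw [Polynomial.coeff_C]
      split_ifs with hj
      · rw [hj]
      · apply hinj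
        rw [map_zero, ← Polynomial.coeff_map, h1, Polynomial.coeff_C, if_neg hj]
    refine ⟨M, N.coeff 0, ?_, ?_⟩
    · rw [← h2]; exact hN
    · have h3 := congrArg (fun q => Polynomial.coeff q 0) h1
      simp only [Polynomial.coeff_map, Polynomial.coeff_C_zero] at h3
      exact h3.symm
  · rintro ⟨M, c, hN, hc⟩
    refine ⟨M, Polynomial.C c, hN, ?_⟩
    unfold sec
    have hgM : gF G ^ M ≠ 0 := pow_ne_zero _ hg
    rw [Polynomial.map_C, ← hc, ← Polynomial.C_mul, ← mul_assoc, inv_mul_cancel₀ hgM, one_mul]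

end Pool.Agent.H56.ND
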